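import Pool.Agent.J6H91.TZ.Stm2

/-!
# TZ2-MIN: minimal polynomials on sets of positive outer measure
-/

set_option autoImplicit false

namespace Pool.Agent.J6H94.TZMin

open Pool.Agent.J6H91.TZ MeasureTheory

theorem step (f : ℝ → ℝ) (k : Polynomial (Polynomial ℝ)) (A : Set ℝ) (hA : 0 < volume A)
    (h : ∀ s ∈ A, kev k s (f s) = 0 ∧ k.map (Polynomial.evalRingHom (f s)) ≠ 0) :
    ∃ (A' : Set ℝ) (q : Polynomial (Polynomial ℝ)) (c M : ℝ), A' ⊆ A ∧ 0 < volume A' ∧ 0 < c ∧
      ∀ s ∈ A', |f s| ≤ M ∧ kev q s (f s) = 0 ∧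
        c ≤ |kev (Polynomial.derivative q) s (f s)| := by
  classical
  have hex : ∃ n, ∃ (A' : Set ℝ) (q : Polynomial (Polynomial ℝ)), A' ⊆ A ∧ q ≠ 0 ∧
      0 < volume A' ∧ (∀ s ∈ A', kev q s (f s) = 0) ∧ q.natDegree = n := by
    refine ⟨_, A, k, subset_rfl, ?_, hA, fun s hs => (h s hs).1, rfl⟩
    rintro rfl
    obtain ⟨s, hs⟩ := nonempty_of_measure_ne_zero hA.ne'
    exact (h s hs).2 (Polynomial.map_zero _)
  obtain ⟨A', q, hA'A, hq, hA', hqz, hn⟩ := Nat.find_spec hex
  have hmin : ∀ (B : Set ℝ) (r : Polynomial (Polynomial ℝ)), B ⊆ A → r ≠ 0 →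
      (∀ s ∈ B, kev r s (f s) = 0) → r.natDegree < q.natDegree → volume B = 0 := by
    intro B r hB hr hz hlt
    by_contra hne
    exact Nat.find_min hex (m := r.natDegree) (by omega)
      ⟨B, r, hB, hr, pos_iff_ne_zero.2 hne, hz, rfl⟩
  rcases Nat.eq_zero_or_pos q.natDegree with h0 | hpos
  · exfalso
    obtain ⟨a, ha⟩ : ∃ a, q = Polynomial.C a := ⟨_, Polynomial.eq_C_of_natDegree_eq_zero h0⟩
    have ha0 : a ≠ 0 := by
      rintro rfl
      exact hq (by rw [ha, Polynomial.C_0])
    have hroot : ∀ s ∈ A', a.eval (f s) = 0 := by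
      intro s hs
      have h1 := hqz s hs
      rw [ha] at h1
      unfold kev at h1
      rw [Polynomial.map_C, Polynomial.eval_C] at h1
      exact h1
    have hfin : A'.Finite := by
      have hcov : A' ⊆ ⋃ w ∈ (a.roots.toFinset : Set ℝ), {s | s ∈ A' ∧ f s = w} := by
        intro s hs
        simp only [Set.mem_iUnion]
        refine ⟨f s, ?_, hs, rfl⟩
        rw [Finset.mem_coe, Multiset.mem_toFinset, Polynomial.mem_roots ha0]
        exact hroot s hs
      refine (Set.Finite.biUnion (Finset.finite_toSet _) fun w _ => ?_).subset hcov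
      by_cases hw : k.map (Polynomial.evalRingHom w) = 0
      · refine Set.Finite.subset Set.finite_empty ?_
        rintro s ⟨hs, rfl⟩
        exact absurd hw (h s (hA'A hs)).2
      · refine ((k.map (Polynomial.evalRingHom w)).roots.toFinset.finite_toSet).subset ?_
        rintro s ⟨hs, rfl⟩
        rw [Finset.mem_coe, Multiset.mem_toFinset, Polynomial.mem_roots hw]
        exact (h s (hA'A hs)).1
    exact hA'.ne' (hfin.measure_zero _)
  · have hd : Polynomial.derivative q ≠ 0 := by
      intro hd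
      have := Polynomial.derivative_eq_zero.1 hd
      omega
    have hN : volume {s | s ∈ A' ∧ kev (Polynomial.derivative q) s (f s) = 0} = 0 :=
      hmin _ _ (fun s hs => hA'A hs.1) hd (fun s hs => hs.2)
        (Polynomial.natDegree_derivative_lt (by omega))
    by_contra hcon
    push Not at hcon
    have hnull : ∀ n : ℕ, volume {s | s ∈ A' ∧ |f s| ≤ n ∧
        1 / ((n : ℝ) + 1) ≤ |kev (Polynomial.derivative q) s (f s)|} = 0 := by
      intro n
      by_contra hne
      obtain ⟨s, hs, h1⟩ := hcon {s | s ∈ A' ∧ |f s| ≤ n ∧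
        1 / ((n : ℝ) + 1) ≤ |kev (Polynomial.derivative q) s (f s)|} q (1 / ((n : ℝ) + 1)) n
        (fun s hs => hA'A hs.1) (pos_iff_ne_zero.2 hne) (by positivity)
      exact absurd hs.2.2 (not_le.2 (h1 hs.2.1 (hqz s hs.1)))
    have hcov : A' ⊆ {s | s ∈ A' ∧ kev (Polynomial.derivative q) s (f s) = 0} ∪
        ⋃ n : ℕ, {s | s ∈ A' ∧ |f s| ≤ n ∧
          1 / ((n : ℝ) + 1) ≤ |kev (Polynomial.derivative q) s (f s)|} := by
      intro s hs
      by_cases hz : kev (Polynomial.derivative q) s (f s) = 0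
      · exact Or.inl ⟨hs, hz⟩
      · right
        obtain ⟨n1, hn1⟩ := exists_nat_ge |f s|
        obtain ⟨n2, hn2⟩ := exists_nat_one_div_lt (abs_pos.2 hz)
        rw [Set.mem_iUnion]
        refine ⟨max n1 n2, hs, hn1.trans (by exact_mod_cast le_max_left _ _), ?_⟩
        refine le_trans ?_ hn2.le
        apply one_div_le_one_div_of_le (by positivity)
        have : (n2 : ℝ) ≤ ((max n1 n2 : ℕ) : ℝ) := by exact_mod_cast le_max_right _ _
        linarith
    exact hA'.ne' (measure_mono_null hcov (measure_union_null hN (measure_iUnion_null hnull)))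

theorem s_min : S_MIN := by
  intro ι _ _ δ x k hδ hk
  have key : ∀ J : Finset ι, ∃ (A : Set ℝ) (q : ι → Polynomial (Polynomial ℝ)) (c M : ℝ),
      A ⊆ Set.Ioo (-δ) δ ∧ 0 < volume A ∧ 0 < c ∧ ∀ s ∈ A, ∀ j ∈ J, |x s j| ≤ M ∧
        kev (q j) s (x s j) = 0 ∧ c ≤ |kev (Polynomial.derivative (q j)) s (x s j)| := by
    intro J
    induction J using Finset.induction_on with
    | empty =>
      refine ⟨Set.Ioo (-δ) δ, k, 1, 0, subset_rfl, ?_, one_pos, fun s _ j hj => ?_⟩
      · rw [Real.volume_Ioo, ENNReal.ofReal_pos]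
        linarith
      · exact absurd hj (Finset.notMem_empty j)
    | insert i J hi ih =>
      obtain ⟨A, q, c, M, hAδ, hA, hc, h⟩ := ih
      obtain ⟨A', r, c', M', hA'A, hA', hc', h'⟩ := step (fun s => x s i) (k i) A hA
        (fun s hs => hk s (hAδ hs) i)
      refine ⟨A', Function.update q i r, min c c', max M M', hA'A.trans hAδ, hA',
        lt_min hc hc', fun s hs j hj => ?_⟩
      rcases Finset.mem_insert.1 hj with rfl | hj
      · rw [Function.update_self]
        obtain ⟨h1, h2, h3⟩ := h' s hs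
        exact ⟨h1.trans (le_max_right _ _), h2, (min_le_right _ _).trans h3⟩
      · have hji : j ≠ i := by
          intro e
          rw [e] at hj
          exact hi hj
        rw [Function.update_of_ne hji]
        obtain ⟨h1, h2, h3⟩ := h s (hA'A hs) j hj
        exact ⟨h1.trans (le_max_left _ _), h2, (min_le_left _ _).trans h3⟩
  obtain ⟨A, q, c, M, h1, h2, h3, h4⟩ := key Finset.univ
  exact ⟨A, q, c, M, h1, h2, h3, fun s hs j => h4 s hs j (Finset.mem_univ j)⟩

end Pool.Agent.J6H94.TZMin
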